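import Pool.Agent.L7h66.UA.Stm
import Pool.Agent.L7h51.UN.Cell0

set_option autoImplicit false

/-! # Project UA, part FRA (helper51): the atoms of a closed group -/

namespace Pool.Agent.L7h51.UA

open Set Function Pool.Agent.L7h66.UA
open Pool.Agent.L7h71.UN (Closed Good Sw IsSwap S_INT)
open Pool.Agent.L7h51.UN (Atom exists_atom atom_eq atom_image gs_image)

variable {G : Subgroup (Equiv.Perm ℕ)}

theorem gb_of_atom {A : Set ℕ} (hA : Atom G A) {v : ℕ} (hv : v ∈ A) : GB G v = A := by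
  obtain ⟨n, b, hb, hbA⟩ := hA.1
  ext u
  constructor
  · intro hu
    rw [← hbA]
    exact hu n b hb (hbA ▸ hv)
  · intro hu m c hc hvc
    exact hA.2.2 (range c) ⟨m, c, hc, rfl⟩ ⟨v, hv, hvc⟩ hu

theorem exists_good {v : ℕ} (hv : v ∉ GD G) : ∃ (n : ℕ) (b : Fin n → ℕ), Good G b ∧ v ∈ range b := by
  by_contra hcon
  exact hv fun n b hb hvb => hcon ⟨n, b, hb, hvb⟩

theorem exists_atom' (hI : S_INT) (hG : Closed G) {v : ℕ} (hv : v ∉ GD G) :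
    ∃ A, Atom G A ∧ v ∈ A ∧ GB G v = A := by
  obtain ⟨n, b, hb, hvb⟩ := exists_good hv
  obtain ⟨A, hA, hvA⟩ := exists_atom hI hG (v := v) (A₀ := range b) ⟨n, b, hb, rfl⟩ hvb
  exact ⟨A, hA, hvA, gb_of_atom hA hvA⟩

theorem not_gd_of_atom {A : Set ℕ} (hA : Atom G A) {v : ℕ} (hv : v ∈ A) : v ∉ GD G := by
  obtain ⟨n, b, hb, hbA⟩ := hA.1
  exact fun h => h n b hb (hbA ▸ hv)

theorem gd_map {g : Equiv.Perm ℕ} (hg : g ∈ G) {v : ℕ} (hv : v ∉ GD G) : g v ∉ GD G := by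
  obtain ⟨n, b, hb, i, hi⟩ := exists_good hv
  intro h
  refine h n (fun i => g (b i)) (Pool.Agent.L7h51.UN.good_map hb hg) ⟨i, ?_⟩
  show g (b i) = g v
  rw [hi]

theorem gb_map {g : Equiv.Perm ℕ} (hg : g ∈ G) {v w : ℕ} (hw : w ∈ GB G v) : g w ∈ GB G (g v) := by
  intro n b hb hvb
  have h1 := hw n (fun i => g⁻¹ (b i)) (Pool.Agent.L7h51.UN.good_map hb (G.inv_mem hg)) (by
    obtain ⟨i, hi⟩ := hvb
    refine ⟨i, ?_⟩
    show g⁻¹ (b i) = v
    rw [hi]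
    simp)
  obtain ⟨i, hi⟩ := h1
  refine ⟨i, ?_⟩
  rw [← hi]
  show b i = g (g⁻¹ (b i))
  simp

theorem inv_app (g : Equiv.Perm ℕ) (v : ℕ) : g⁻¹ (g v) = v := g.symm_apply_apply v

theorem app_inv (g : Equiv.Perm ℕ) (v : ℕ) : g (g⁻¹ v) = v := g.apply_symm_apply v

theorem s_FRA (hI : S_INT) : S_FRA := by
  intro G hG
  refine ⟨fun v hv => ?_, fun v hv w hw => ?_, fun g hg v => ⟨⟨fun h => ?_, fun h => ?_⟩, fun w => ⟨fun h => ?_, fun h => ?_⟩⟩⟩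
  · obtain ⟨A, hA, _, hGB⟩ := exists_atom' hI hG hv
    obtain ⟨n, b, hb, hbA⟩ := hA.1
    exact ⟨n, b, hb, by rw [hbA, hGB]⟩
  · obtain ⟨A, hA, _, hGB⟩ := exists_atom' hI hG hv
    rw [hGB] at hw ⊢
    exact ⟨not_gd_of_atom hA hw, gb_of_atom hA hw⟩
  · by_contra hcon
    exact gd_map hg hcon h
  · by_contra hcon
    have h1 := gd_map (G.inv_mem hg) hcon
    rw [inv_app] at h1
    exact h1 h
  · have h1 := gb_map (G.inv_mem hg) h
    rwa [inv_app, inv_app] at h1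
  · exact gb_map hg h

/-- FRA without hypotheses. -/
theorem fra : S_FRA := s_FRA Pool.Agent.L7h51.UN.s_INT

end Pool.Agent.L7h51.UA
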