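import Pool.Agent.L7h51.UA.Fra

set_option autoImplicit false

/-! # Project UA, part FRB (helper51): extension of finite partial maps -/

namespace Pool.Agent.L7h51.UA

open Set Function Pool.Agent.L7h66.UA
open Pool.Agent.L7h71.UN (Closed Good Sw IsSwap S_INT)

variable {G : Subgroup (Equiv.Perm ℕ)}

theorem fs_one : FS G 1 := ⟨G.one_mem, by simp, fun _ _ => rfl⟩

theorem fs_mul {g h : Equiv.Perm ℕ} (hg : FS G g) (hh : FS G h) : FS G (g * h) := by
  refine ⟨G.mul_mem hg.1 hh.1, (hg.2.1.union hh.2.1).subset fun v hv => ?_, fun v hv => ?_⟩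
  · by_contra hcon
    rw [mem_union, not_or] at hcon
    have h1 : g v = v := by
      by_contra h
      exact hcon.1 h
    have h2 : h v = v := by
      by_contra h'
      exact hcon.2 h'
    apply hv
    rw [Equiv.Perm.mul_apply, h2, h1]
  · rw [Equiv.Perm.mul_apply, hh.2.2 v hv, hg.2.2 v hv]

theorem fs_inv {g : Equiv.Perm ℕ} (hg : FS G g) : FS G g⁻¹ := by
  refine ⟨G.inv_mem hg.1, hg.2.1.subset fun v hv h => hv ?_, fun v hv => ?_⟩
  · have h1 : g⁻¹ (g v) = g⁻¹ v := by rw [h]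
    rw [inv_app] at h1
    exact h1.symm
  · have h1 : g⁻¹ (g v) = g⁻¹ v := by rw [hg.2.2 v hv]
    rw [inv_app] at h1
    exact h1.symm

/-- a swap of a good tuple has finite support and fixes the bad points -/
theorem fs_swap {n : ℕ} {b b' : Fin n → ℕ} (hb : Good G b) {g : Equiv.Perm ℕ} (hg : g ∈ G)
    (hs : IsSwap g b b') : FS G g := by
  have hb' : Good G b' := by
    have h1 := Pool.Agent.L7h51.UN.good_map hb hg
    have h2 : (fun i => g (b i)) = b' := funext hs.1
    rwa [h2] at h1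
  refine ⟨hg, ((finite_range b).union (finite_range b')).subset fun v hv => ?_, fun v hv => ?_⟩
  · by_contra hcon
    rw [mem_union, not_or] at hcon
    exact hv (hs.2.2 v (fun i hi => hcon.1 ⟨i, hi.symm⟩) fun i hi => hcon.2 ⟨i, hi.symm⟩)
  · exact hs.2.2 v (fun i hi => hv n b hb ⟨i, hi.symm⟩) fun i hi => hv n b' hb' ⟨i, hi.symm⟩

/-- Moving an atom while fixing a finite set. -/
theorem fs_move {n : ℕ} {b : Fin n → ℕ} (hb : Good G b) {t : Equiv.Perm ℕ} (ht : FS G t)
    {P : Set ℕ} (hP : P.Finite) (h1 : ∀ i, b i ∉ P) (h2 : ∀ i, t (b i) ∉ P) :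
    ∃ h, FS G h ∧ (∀ i, h (b i) = t (b i)) ∧ ∀ v ∈ P, h v = v := by
  classical
  obtain ⟨b', hb1, hb2, g, hg, hs⟩ := hb.2 (hP.toFinset ∪ ht.2.1.toFinset ∪ Finset.univ.image (fun i => t (b i)))
  have a1 : ∀ i, b' i ∉ P := fun i hi => hb1 i (by simp [hi])
  have a2 : ∀ i, t (b' i) = b' i := by
    intro i
    by_contra hcon
    exact hb1 i (by simp [hcon])
  have a3 : ∀ i j, t (b i) ≠ b' j := by
    intro i j hij
    exact hb1 j (by simp [← hij])
  have hgf := fs_swap hb hg hs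
  refine ⟨t * g * t⁻¹ * g, fs_mul (fs_mul (fs_mul ht hgf) (fs_inv ht)) hgf, fun i => ?_, fun v hv => ?_⟩
  · rw [Equiv.Perm.mul_apply, Equiv.Perm.mul_apply, Equiv.Perm.mul_apply, hs.1]
    have : t⁻¹ (b' i) = b' i := by
      conv_lhs => rw [← a2 i]
      exact inv_app t _
    rw [this, hs.2.1]
  · have c1 : g v = v := hs.2.2 v (fun i hi => h1 i (hi ▸ hv)) fun i hi => a1 i (hi ▸ hv)
    rw [Equiv.Perm.mul_apply, Equiv.Perm.mul_apply, Equiv.Perm.mul_apply, c1]
    have c2 : g (t⁻¹ v) = t⁻¹ v := by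
      refine hs.2.2 _ (fun i hi => h2 i ?_) fun i hi => a1 i ?_
      · rw [← hi, app_inv]
        exact hv
      · have : t (b' i) = v := by rw [← hi, app_inv]
        rw [a2] at this
        rw [this]
        exact hv
    rw [c2, app_inv]

theorem s_FRB (hA : S_FRA) : S_FRB := by
  classical
  intro G hG Z f
  obtain ⟨fa, fb, fc⟩ := hA G hG
  induction Z using Finset.induction_on with
  | empty => exact fun _ _ _ => ⟨1, fs_one, fun v hv => absurd hv (Finset.notMem_empty v)⟩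
  | insert z Z hz ih =>
    intro h1 h2 h3
    obtain ⟨g₀, hg₀, hg⟩ := ih (fun v hv => h1 v (Finset.mem_insert_of_mem hv))
      (fun v hv => h2 v (Finset.mem_insert_of_mem hv))
      (fun v hv w hw => h3 v (Finset.mem_insert_of_mem hv) w (Finset.mem_insert_of_mem hw))
    -- it is enough to treat the new point
    have red : ∀ g, FS G g → (∀ v ∈ Z, g v = g₀ v ∧ (v ∉ GD G → ∀ u ∈ GB G v, g u = g₀ u)) →
        (g z = f z ∧ (z ∉ GD G → ∀ u ∈ GB G z, g u = f u)) →
        ∃ g, FS G g ∧ ∀ v ∈ insert z Z, g v = f v ∧ (v ∉ GD G → ∀ u ∈ GB G v, g u = f u) := by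
      intro g hgF ha hb
      refine ⟨g, hgF, fun v hv => ?_⟩
      rcases Finset.mem_insert.1 hv with rfl | hv
      · exact hb
      · refine ⟨(ha v hv).1.trans (hg v hv).1, fun hvD u hu => ?_⟩
        rw [(ha v hv).2 hvD u hu, (hg v hv).2 hvD u hu]
    have hself : ∀ v, v ∈ GB G v := fun v n b hb hvb => hvb
    by_cases hzD : z ∈ GD G
    · refine red g₀ hg₀ (fun v hv => ⟨rfl, fun _ u _ => rfl⟩) ⟨?_, fun h => absurd hzD h⟩
      rw [hg₀.2.2 z hzD, h1 z (Finset.mem_insert_self _ _) hzD]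
    by_cases hex : ∃ v ∈ Z, v ∉ GD G ∧ z ∈ GB G v
    · obtain ⟨v, hv, hvD, hzv⟩ := hex
      have h4 := (fb v hvD z hzv).2
      refine red g₀ hg₀ (fun v hv => ⟨rfl, fun _ u _ => rfl⟩) ⟨(hg v hv).2 hvD z hzv, fun _ u hu => ?_⟩
      rw [h4] at hu
      exact (hg v hv).2 hvD u hu
    -- the new atom
    obtain ⟨n, b, hb, hbr⟩ := fa z hzD
    obtain ⟨s', hs', hs'f⟩ := h2 z (Finset.mem_insert_self _ _) hzD
    obtain ⟨s, hs, hss'⟩ := hs' (Finset.univ.image b)
    have hsf : ∀ u ∈ GB G z, s u = f u := by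
      intro u hu
      rw [hs'f u hu]
      refine hss' u ?_
      rw [← hbr] at hu
      obtain ⟨i, hi⟩ := hu
      rw [← hi]
      exact Finset.mem_image_of_mem b (Finset.mem_univ i)
    set t := g₀⁻¹ * s with ht
    have htF : FS G t := fs_mul (fs_inv hg₀) hs
    -- the finite set
    have hfin : ∀ v, v ∉ GD G → (GB G v).Finite := by
      intro v hv
      obtain ⟨m, c, _, hc⟩ := fa v hv
      rw [← hc]
      exact finite_range c
    set P : Set ℕ := {u | ∃ v ∈ Z, v ∉ GD G ∧ u ∈ GB G v} with hPdef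
    have hPfin : P.Finite := by
      have : P = ⋃ v ∈ (Z.filter (fun v => v ∉ GD G)), GB G v := by
        ext u
        simp only [hPdef, mem_ofPred_eq, mem_iUnion, Finset.mem_filter]
        constructor
        · rintro ⟨v, hv, hvD, hu⟩
          exact ⟨v, ⟨hv, hvD⟩, hu⟩
        · rintro ⟨v, ⟨hv, hvD⟩, hu⟩
          exact ⟨v, hv, hvD, hu⟩
      rw [this]
      refine Set.Finite.biUnion (Finset.finite_toSet _) fun v hv => ?_
      rw [Finset.mem_coe, Finset.mem_filter] at hv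
      exact hfin v hv.2
    have hbz : ∀ i, b i ∈ GB G z := fun i => hbr ▸ mem_range_self i
    have p1 : ∀ i, b i ∉ P := by
      rintro i ⟨v, hv, hvD, hbv⟩
      refine hex ⟨v, hv, hvD, ?_⟩
      rw [← (fb v hvD _ hbv).2, (fb z hzD _ (hbz i)).2]
      exact hself z
    have p2 : ∀ i, t (b i) ∉ P := by
      rintro i ⟨v, hv, hvD, hbv⟩
      -- `s (b i)` is in the atom of `f v`
      have q1 : g₀ (t (b i)) ∈ GB G (g₀ v) := ((fc g₀ hg₀.1 v).2 _).2 hbv
      have q2 : g₀ (t (b i)) = s (b i) := by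
        rw [ht, Equiv.Perm.mul_apply, app_inv]
      rw [q2, (hg v hv).1] at q1
      have hfvD : f v ∉ GD G := by
        rw [← (hg v hv).1]
        exact fun h => hvD ((fc g₀ hg₀.1 v).1.1 h)
      have q3 : GB G (s (b i)) = GB G (f v) := (fb (f v) hfvD _ q1).2
      have q4 : s (b i) ∈ GB G (s z) := ((fc s hs.1 z).2 _).2 (hbz i)
      have hszD : s z ∉ GD G := fun h => hzD ((fc s hs.1 z).1.1 h)
      have q5 : GB G (s (b i)) = GB G (s z) := (fb (s z) hszD _ q4).2
      have q6 : f z ∈ GB G (f v) := by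
        rw [← q3, q5, ← hsf z (hself z)]
        exact hself _
      exact hex ⟨v, hv, hvD, h3 v (Finset.mem_insert_of_mem hv) z (Finset.mem_insert_self _ _) hvD hzD q6⟩
    obtain ⟨h, hhF, hh1, hh2⟩ := fs_move hb htF hPfin p1 p2
    refine red (g₀ * h) (fs_mul hg₀ hhF) (fun v hv => ?_) ?_
    · have e1 : v ∉ GD G → ∀ u ∈ GB G v, (g₀ * h) u = g₀ u := by
        intro hvD u hu
        rw [Equiv.Perm.mul_apply, hh2 u ⟨v, hv, hvD, hu⟩]
      refine ⟨?_, e1⟩
      by_cases hvD : v ∈ GD G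
      · rw [Equiv.Perm.mul_apply, hhF.2.2 v hvD]
      · exact e1 hvD v (hself v)
    · have e1 : ∀ u ∈ GB G z, (g₀ * h) u = f u := by
        intro u hu
        rw [← hbr] at hu
        obtain ⟨i, rfl⟩ := hu
        rw [Equiv.Perm.mul_apply, hh1, ht, Equiv.Perm.mul_apply, app_inv]
        exact hsf _ (hbz i)
      exact ⟨e1 z (hself z), fun _ => e1⟩

/-- FRB without hypotheses. -/
theorem frb : S_FRB := s_FRB fra

end Pool.Agent.L7h51.UA
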