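import Pool.Agent.L7h66.UA.StmX
import Pool.Agent.L7h77.UN.Nam

set_option autoImplicit false

/-! # Project UA, part NX1 (helper51): a function with infinite range -/

namespace Pool.Agent.L7h51.UA

open Set Function Pool.Agent.L7h66.UA
open Pool.Agent.L7h71.UN (St S_FQ)
open Pool.Agent.L7h77.UN (Vf val Mf pat pt Mf_pat)

variable {a : ℕ → ℕ} {K : ℕ → Type}

theorem lc_pi {n : ℕ} {f : (ℕ → Bool) → Fin n → ℕ} (h : ∀ i, IsLocallyConstant fun c => f c i) :
    IsLocallyConstant f := by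
  rw [IsLocallyConstant.iff_eventually_eq]
  intro c
  have h1 : ∀ᶠ d in nhds c, ∀ i, f d i = f c i :=
    Filter.eventually_all.2 fun i => (IsLocallyConstant.iff_eventually_eq _).1 (h i) c
  filter_upwards [h1] with d hd
  exact funext hd

theorem range_mf {r : ℕ} {L : Type} (F : Finset ℕ) (M : St r L ℕ) (h : (range M).Infinite) :
    (range (Mf F M)).Infinite := by
  classical
  have hinf : Infinite (Vf F) := F.finite_toSet.infinite_compl.to_subtype
  obtain ⟨v0⟩ : Nonempty (Vf F) := inferInstance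
  intro hfin
  apply h
  refine (Set.finite_iUnion fun t : Fin r → Option F => hfin.image fun w => w t).subset ?_
  rintro _ ⟨y, rfl⟩
  rw [mem_iUnion]
  exact ⟨fun i => pat F (y i), _, ⟨fun i => pt F v0 (y i), rfl⟩, Mf_pat M v0 y⟩

/-- The substructures on `F ∪ A c` are pairwise different over the named points. -/
theorem sep_of_rigid (M : XS a K ℕ) (F : Finset ℕ) (i₀ : ℕ) (s : Finset (Vf F))
    (A : (ℕ → Bool) → Set (Vf F))
    (hA4 : ∀ (c d : ℕ → Bool) (f : Vf F → Vf F), BijOn f (A c) (A d) → (∀ w ∈ s, f w = w) →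
      (∀ x : Fin (a i₀) → Vf F, (∀ i, x i ∈ A c) → Mf F (M i₀) (f ∘ x) = Mf F (M i₀) x) → c = d)
    (hs : ∀ c, (s : Set (Vf F)) ⊆ A c)
    (ε : (ℕ → Bool) → ℕ → ℕ) (hε1 : ∀ c, Injective (ε c))
    (hε2 : ∀ c, range (ε c) = (F : Set ℕ) ∪ Subtype.val '' A c) (c d : ℕ → Bool)
    (e : Equiv.Perm ℕ)
    (he : ∀ p : ℕ, (p ∈ F ∨ ∃ w ∈ s, w.1 = p) → ∀ n m, ε c n = p → ε d m = p → e n = m)
    (hM : ∀ x : Fin (a i₀) → ℕ, M i₀ (ε d ∘ (e ∘ x)) = M i₀ (ε c ∘ x)) : c = d := by
  classical
  have hF : ∀ c, ∀ p ∈ F, ∃ n, ε c n = p := by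
    intro c p hp
    have : p ∈ range (ε c) := by
      rw [hε2]
      exact Or.inl hp
    exact this
  have hAr : ∀ c, ∀ w ∈ A c, ∃ n, ε c n = w.1 := by
    intro c w hw
    have : w.1 ∈ range (ε c) := by
      rw [hε2]
      exact Or.inr ⟨w, hw, rfl⟩
    exact this
  -- points outside `F` are moved to points outside `F`
  have hout : ∀ n, ε d (e n) ∈ F ↔ ε c n ∈ F := by
    intro n
    constructor
    · intro h
      obtain ⟨k, hk⟩ := hF c _ h
      have h1 := he _ (Or.inl h) k (e n) hk rfl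
      have h2 := e.injective h1
      rw [← h2, hk]
      exact h
    · intro h
      obtain ⟨m, hm⟩ := hF d _ h
      have h1 := he _ (Or.inl h) n m rfl hm
      rw [h1, hm]
      exact h
  set inv : ℕ → ℕ := invFun (ε c) with hinv
  have hinv1 : ∀ n, inv (ε c n) = n := leftInverse_invFun (hε1 c)
  set φ : ℕ → ℕ := fun y => ε d (e (inv y)) with hφ
  have hφn : ∀ n, φ (ε c n) = ε d (e n) := by
    intro n
    show ε d (e (inv (ε c n))) = _
    rw [hinv1]
  have hφF : ∀ p ∈ F, φ p = p := by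
    intro p hp
    obtain ⟨n, hn⟩ := hF c p hp
    obtain ⟨m, hm⟩ := hF d p hp
    rw [← hn, hφn, he p (Or.inl hp) n m hn hm, hm, hn]
  set f : Vf F → Vf F := fun w => if h : φ w.1 ∉ F then ⟨φ w.1, h⟩ else w with hf
  have hfA : ∀ w ∈ A c, (f w).1 = φ w.1 := by
    intro w hw
    obtain ⟨n, hn⟩ := hAr c w hw
    have h1 : φ w.1 ∉ F := by
      rw [← hn, hφn, hout, hn]
      exact w.2
    show (if h : φ w.1 ∉ F then (⟨φ w.1, h⟩ : Vf F) else w).1 = _
    rw [dif_pos h1]
  refine hA4 c d f ⟨?_, ?_, ?_⟩ ?_ ?_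
  · intro w hw
    obtain ⟨n, hn⟩ := hAr c w hw
    have h1 : (f w).1 ∈ range (ε d) := by
      rw [hfA w hw, ← hn, hφn]
      exact mem_range_self _
    rw [hε2] at h1
    rcases h1 with h1 | ⟨w', hw', h1⟩
    · exact absurd h1 (f w).2
    · have : w' = f w := Subtype.ext h1
      rwa [this] at hw'
  · intro w hw w' hw' h
    obtain ⟨n, hn⟩ := hAr c w hw
    obtain ⟨n', hn'⟩ := hAr c w' hw'
    have h1 : (f w).1 = (f w').1 := by rw [h]
    rw [hfA w hw, hfA w' hw', ← hn, ← hn', hφn, hφn] at h1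
    have h2 := e.injective (hε1 d h1)
    apply Subtype.ext
    rw [← hn, ← hn', h2]
  · intro w' hw'
    obtain ⟨m, hm⟩ := hAr d w' hw'
    have h1 : ε c (e.symm m) ∉ F := by
      rw [← hout, Equiv.apply_symm_apply, hm]
      exact w'.2
    have h2 : ε c (e.symm m) ∈ range (ε c) := mem_range_self _
    rw [hε2] at h2
    rcases h2 with h2 | ⟨w, hw, h2⟩
    · exact absurd h2 h1
    · refine ⟨w, hw, Subtype.ext ?_⟩
      rw [hfA w hw, h2, hφn, Equiv.apply_symm_apply, hm]
  · intro w hw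
    have hwA := hs c hw
    obtain ⟨n, hn⟩ := hAr c w hwA
    obtain ⟨m, hm⟩ := hAr d w (hs d hw)
    apply Subtype.ext
    rw [hfA w hwA, ← hn, hφn, he w.1 (Or.inr ⟨w, hw, rfl⟩) n m hn hm, hm, hn]
  · intro x hx
    funext t
    unfold Mf
    -- the tuple
    have hy : ∀ i, ∃ n, ε c n = val F (t i) (x i).1 := by
      intro i
      rcases t i with _ | p
      · exact hAr c _ (hx i)
      · exact hF c _ p.2
    choose n hn using hy
    have e1 : (fun i => val F (t i) (x i).1) = ε c ∘ n := by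
      funext i
      exact (hn i).symm
    have e2 : (fun i => val F (t i) ((f ∘ x) i).1) = ε d ∘ (e ∘ n) := by
      funext i
      show val F (t i) (f (x i)).1 = ε d (e (n i))
      rw [← hφn, hn]
      rcases t i with _ | p
      · exact hfA _ (hx i)
      · exact (hφF _ p.2).symm
    rw [e1, e2]
    exact hM n

theorem s_NX1 (hFQ : S_FQ) (hP : S_PFX) (hE : S_ENU) : S_NX1 := by
  classical
  rintro a K M F ⟨i₀, hi⟩
  have hinf : Infinite (Vf F) := F.finite_toSet.infinite_compl.to_subtype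
  obtain ⟨s, A, hA1, hA2, hA3, hA4⟩ :=
    hFQ (a i₀) _ (Vf F) (Mf F (M i₀)) (range_mf F (M i₀) hi)
  set A' : (ℕ → Bool) → Set ℕ := fun c => (F : Set ℕ) ∪ Subtype.val '' A c with hA'
  have hcl : ∀ w, IsClopen {c | w ∈ A' c} := by
    intro w
    by_cases hw : w ∈ F
    · have : {c | w ∈ A' c} = univ := by
        ext c
        simp only [mem_univ, iff_true]
        exact Or.inl hw
      rw [this]
      exact isClopen_univ
    · have : {c | w ∈ A' c} = {c | (⟨w, hw⟩ : Vf F) ∈ A c} := by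
        ext c
        constructor
        · rintro (h | ⟨w', hw', h⟩)
          · exact absurd h hw
          · have : w' = ⟨w, hw⟩ := Subtype.ext h
            show (⟨w, hw⟩ : Vf F) ∈ A c
            rwa [← this]
        · intro h
          exact Or.inr ⟨_, h, rfl⟩
      rw [this]
      exact hA1 _
  have hinf' : ∀ c, (A' c).Infinite := fun c =>
    ((hA3 c).image Subtype.val_injective.injOn).mono subset_union_right
  obtain ⟨ε, hε1, hε2, hε3⟩ := hE ℕ A' hcl hinf'
  set g : (ℕ → Bool) → XS a K ℕ := fun c j x => M j (ε c ∘ x) with hg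
  have hglc : ∀ j x, IsLocallyConstant fun c => g c j x := by
    intro j x
    have h1 : IsLocallyConstant fun c => ε c ∘ x := lc_pi fun i => hε3 (x i)
    exact h1.comp (M j)
  -- the named points
  set S : Finset ℕ := F ∪ s.image Subtype.val with hS
  have hSmem : ∀ c, ∀ p ∈ S, ∃ n, ε c n = p := by
    intro c p hp
    have : p ∈ range (ε c) := by
      rw [hε2]
      rcases Finset.mem_union.1 hp with h | h
      · exact Or.inl h
      · obtain ⟨w, hw, rfl⟩ := Finset.mem_image.1 h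
        exact Or.inr ⟨w, hA2 c hw, rfl⟩
    exact this
  choose pos hpos using fun (c : ℕ → Bool) (j : Fin S.card) =>
    hSmem c (S.equivFin.symm j).1 (S.equivFin.symm j).2
  obtain ⟨h, hc, hh⟩ := hP a K S.card g pos hglc (by
    intro c d e he hx
    refine sep_of_rigid M F i₀ s A hA4 hA2 ε hε1 hε2 c d e ?_ fun x => hx i₀ x
    intro p hp n m hn hm
    have hpS : p ∈ S := by
      rcases hp with h | ⟨w, hw, rfl⟩
      · exact Finset.mem_union_left _ h
      · exact Finset.mem_union_right _ (Finset.mem_image_of_mem _ hw)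
    have h1 := he (S.equivFin ⟨p, hpS⟩)
    have h2 := hpos c (S.equivFin ⟨p, hpS⟩)
    have h3 := hpos d (S.equivFin ⟨p, hpS⟩)
    rw [Equiv.symm_apply_apply] at h2 h3
    have h4 : pos c (S.equivFin ⟨p, hpS⟩) = n := hε1 c (h2.trans hn.symm)
    have h5 : pos d (S.equivFin ⟨p, hpS⟩) = m := hε1 d (h3.trans hm.symm)
    rw [h4, h5] at h1
    exact h1)
  refine ⟨fun c => g (h c), fun j x => (hglc j x).comp_continuous hc, fun c => ?_, hh⟩
  -- the copy which fixes `F`
  set c' := h c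
  have hAinf : Infinite (A c') := (hA3 c').to_subtype
  obtain ⟨θ⟩ : Nonempty (Vf F ≃ A c') := by
    have d1 := Classical.choice (nonempty_denumerable (Vf F))
    have d2 := Classical.choice (nonempty_denumerable (A c'))
    exact ⟨(Denumerable.eqv (Vf F)).trans (Denumerable.eqv (A c')).symm⟩
  set τ : ℕ → ℕ := fun y => if hy : y ∈ F then y else (θ ⟨y, hy⟩).1.1 with hτ
  have hτ1 : ∀ y, y ∈ F → τ y = y := fun y hy => dif_pos hy
  have hτ2 : ∀ y (hy : y ∉ F), τ y = (θ ⟨y, hy⟩).1.1 := fun y hy => dif_neg hy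
  have hτF : ∀ y, τ y ∈ F → y ∈ F := by
    intro y h1
    by_contra hy
    rw [hτ2 y hy] at h1
    exact (θ ⟨y, hy⟩).1.2 h1
  have hτi : Injective τ := by
    intro y z hyz
    by_cases hy : y ∈ F
    · have hz : z ∈ F := by
        apply hτF
        rw [← hyz, hτ1 y hy]
        exact hy
      rwa [hτ1 y hy, hτ1 z hz] at hyz
    · have hz : z ∉ F := by
        intro hz
        apply hy
        apply hτF
        rw [hyz, hτ1 z hz]
        exact hz
      rw [hτ2 y hy, hτ2 z hz] at hyz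
      have := θ.injective (Subtype.ext (Subtype.ext hyz))
      exact congrArg Subtype.val this
  have hτr : range τ = range (ε c') := by
    rw [hε2]
    ext y
    constructor
    · rintro ⟨z, rfl⟩
      by_cases hz : z ∈ F
      · rw [hτ1 z hz]
        exact Or.inl hz
      · rw [hτ2 z hz]
        exact Or.inr ⟨_, (θ ⟨z, hz⟩).2, rfl⟩
    · rintro (hy | ⟨w, hw, rfl⟩)
      · exact ⟨y, hτ1 y hy⟩
      · refine ⟨(θ.symm ⟨w, hw⟩).1, ?_⟩
        rw [hτ2 _ (θ.symm ⟨w, hw⟩).2]
        simp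
  refine ⟨fun j x => M j (τ ∘ x), fun X n => ⟨τ, hτi.injOn, hτ1, fun p _ => hτF p, fun i _ x _ => rfl⟩, ?_⟩
  set e : ℕ ≃ ℕ := ((Equiv.ofInjective τ hτi).trans (Equiv.setCongr hτr)).trans
    (Equiv.ofInjective (ε c') (hε1 c')).symm with he
  have heq : ∀ n, ε c' (e n) = τ n := by
    intro n
    have h1 : (Equiv.ofInjective (ε c') (hε1 c')) (e n) = Equiv.setCongr hτr (Equiv.ofInjective τ hτi n) := by
      rw [he]
      simp
    have h2 := congrArg Subtype.val h1
    simpa using h2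
  refine ⟨e, fun i x => ?_⟩
  show M i (ε c' ∘ (e ∘ x)) = M i (τ ∘ x)
  congr 1
  funext j
  exact heq (x j)

end Pool.Agent.L7h51.UA
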